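import Mathlib
import Pool.Agent.KS7_39.Blk.Block637.Core

/-!
# A connectivity criterion for 3P-blocking words, and blocking words of linear length

A reduced word `u` of rank `r ≥ 2` is 3P-blocking as soon as its directed Whitehead graph, which has
the `2 r` letters as vertices and an arc from `a` to `b` if `a⁻¹ b` is a subword of `u`, is strongly
connected and remains so after the deletion of any one vertex. For every `r ≥ 2` there is such a
word of length `8 r - 7`; on the other hand every 3P-blocking word contains all `2 r` letters.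
-/

set_option autoImplicit false

namespace Pool.Agent.Results.MP_1d2ce7_al.LinearLength

/-- The word `w` is partially positive: some generator `a` occurs in the reduced word `w`, and
`a⁻¹` does not occur in it. -/
def PartiallyPositive {r : ℕ} (w : FreeGroup (Fin r)) : Prop :=
  ∃ a : Fin r, (a, true) ∈ w.toWord ∧ (a, false) ∉ w.toWord

/-- The word `w` is 3P (potentially partially positive): it is the image of a partially positive
word under an automorphism. -/
def ThreeP {r : ℕ} (w : FreeGroup (Fin r)) : Prop :=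
  ∃ (φ : FreeGroup (Fin r) ≃* FreeGroup (Fin r)) (v : FreeGroup (Fin r)),
    PartiallyPositive v ∧ w = φ v

/-- The reduced word of `w` is cyclically reduced: its first letter is not the inverse of its last
letter. -/
def CyclicallyReduced {r : ℕ} (w : FreeGroup (Fin r)) : Prop :=
  ∀ x ∈ w.toWord.head?, ∀ y ∈ w.toWord.getLast?, x ≠ (y.1, !y.2)

/-- The reduced word `u` is 3P-blocking: it is not a subword of any cyclically reduced 3P word. -/
def IsBlocking {r : ℕ} (u : List (Fin r × Bool)) : Prop :=
  FreeGroup.IsReduced u ∧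
    ∀ w : FreeGroup (Fin r), ThreeP w → CyclicallyReduced w → ¬ (u <:+: w.toWord)

/-- There is an arc from the letter `a` to the letter `b ≠ z` in the directed Whitehead graph of
`u`: the word `a⁻¹ b` is a subword of `u`. -/
def Arc {r : ℕ} (u : List (Fin r × Bool)) (z a b : Fin r × Bool) : Prop :=
  b ≠ z ∧ [(a.1, !a.2), b] <:+: u

/-- The directed Whitehead graph of `u` is strongly connected after the deletion of any one of its
`2 r` vertices: any two letters `p, q` different from `z` are joined by a directed path from `p` to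
`q` that avoids `z`. -/
def StronglyTwoConnected {r : ℕ} (u : List (Fin r × Bool)) : Prop :=
  ∀ z p q : Fin r × Bool, p ≠ z → q ≠ z → Relation.ReflTransGen (Arc u z) p q

lemma cyc {r : ℕ} {w : FreeGroup (Fin r)} (h : CyclicallyReduced w) :
    FreeGroup.IsCyclicallyReduced w.toWord := by
  refine ⟨FreeGroup.isReduced_toWord, fun a ha b hb => ?_⟩
  exact (Blk39.red_iff a b).mpr (h b hb a ha)

lemma ne_of_card {r : ℕ} (hr : 2 ≤ r) (S : Finset (Fin r × Bool)) (hS : S.card ≤ 3) :
    ∃ c, c ∉ S := by
  by_contra h
  push Not at h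
  have h1 : (Finset.univ : Finset (Fin r × Bool)) ⊆ S := fun c _ => h c
  have h2 := Finset.card_le_card h1
  rw [Finset.card_univ, Fintype.card_prod, Fintype.card_fin, Fintype.card_bool] at h2
  omega

theorem blocking_of {r : ℕ} (hr : 2 ≤ r) (u : List (Fin r × Bool)) (hu : FreeGroup.IsReduced u)
    (h2 : StronglyTwoConnected u) : IsBlocking u := by
  classical
  refine ⟨hu, ?_⟩
  rintro w ⟨φ, v, ⟨a, -, ha⟩, rfl⟩ hw hinf
  obtain ⟨h, P, Q, hred, ⟨p, hp⟩, ⟨q, hq⟩, hPQ, hcov, hturn⟩ :=
    Blk39.exists_turns φ.symm (a, true)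
  obtain ⟨z, hpz, hqz, hz⟩ : ∃ z, p ≠ z ∧ q ≠ z ∧ ∀ b, b ≠ z → b ∈ P ∪ Q := by
    rcases h.eq_nil_or_concat with rfl | ⟨h', t, rfl⟩
    · obtain ⟨z, hz⟩ := ne_of_card hr {p, q} (Finset.card_le_two.trans (by norm_num))
      refine ⟨z, ?_, ?_, fun b _ => (hcov b).1 (by simp)⟩
      · rintro rfl
        exact hz (by simp)
      · rintro rfl
        exact hz (by simp)
    · have hne : ∀ c, c ∈ P ∪ Q → c ≠ Blk39.bar t := by
        intro c hc
        have h3 := (hcov c).2 hc
        exact Blk39.pair_ne (Blk39.IsRed.of_sub h3 ⟨h', [], by simp⟩)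
      refine ⟨Blk39.bar t, hne p (Or.inl hp), hne q (Or.inr hq), ?_⟩
      intro b hb
      apply (hcov b).1
      rw [List.concat_eq_append] at hred ⊢
      exact Blk39.overlap_one hred (Blk39.isReduced_pair hb)
  have key : ∀ c, Relation.ReflTransGen (Arc u z) p c → c ∈ P := by
    intro c hc
    induction hc with
    | refl => exact hp
    | tail _ hcd ih =>
      rename_i c d hpc
      obtain ⟨hdz, hsub⟩ := hcd
      rcases hz d hdz with h3 | h3
      · exact h3
      · exfalso
        refine hturn (φ v) (cyc hw) ?_ c ih d h3 (List.IsInfix.trans hsub hinf)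
        rw [MulEquiv.symm_apply_apply]
        exact ha
  exact hPQ q (key q (h2 z p q hpz hqz)) hq

/-- The words `a v₁ a⁻¹ v₁ a v₂ a⁻¹ v₂ … a`. -/
def W {r : ℕ} (o : Fin r) : List (Fin r × Bool) → List (Fin r × Bool)
  | [] => [(o, true)]
  | v :: l => (o, true) :: v :: (o, false) :: v :: W o l

lemma W_head {r : ℕ} (o : Fin r) (l : List (Fin r × Bool)) : ∃ t, W o l = (o, true) :: t := by
  cases l with
  | nil => exact ⟨[], rfl⟩
  | cons v l => exact ⟨_, rfl⟩

lemma W_length {r : ℕ} (o : Fin r) (l : List (Fin r × Bool)) :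
    (W o l).length = 4 * l.length + 1 := by
  induction l with
  | nil => rfl
  | cons v l ih =>
    simp only [W, List.length_cons, ih]
    ring

lemma W_reduced {r : ℕ} (o : Fin r) (l : List (Fin r × Bool)) (hl : ∀ v ∈ l, v.1 ≠ o) :
    FreeGroup.IsReduced (W o l) := by
  induction l with
  | nil => exact FreeGroup.IsReduced.singleton
  | cons v l ih =>
    have hv : v.1 ≠ o := hl v (by simp)
    have h1 := ih (fun x hx => hl x (by simp [hx]))
    obtain ⟨t, ht⟩ := W_head o l
    simp only [W]
    rw [ht] at h1 ⊢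
    rw [FreeGroup.isReduced_cons_cons, FreeGroup.isReduced_cons_cons,
      FreeGroup.isReduced_cons_cons, FreeGroup.isReduced_cons_cons]
    exact ⟨fun h => absurd h.symm hv, fun h => absurd h hv, fun h => absurd h.symm hv,
      fun h => absurd h hv, h1⟩

lemma W_sub {r : ℕ} (o : Fin r) (l : List (Fin r × Bool)) (v : Fin r × Bool) (hv : v ∈ l)
    (b : Bool) : [(o, b), v] <:+: W o l ∧ [v, (o, b)] <:+: W o l := by
  induction l with
  | nil => simp at hv
  | cons x l ih =>
    rcases List.mem_cons.1 hv with rfl | hv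
    · obtain ⟨t, ht⟩ := W_head o l
      simp only [W]
      rw [ht]
      cases b with
      | true => exact ⟨⟨[], (o, false) :: v :: (o, true) :: t, by simp⟩,
          ⟨[(o, true), v, (o, false)], t, by simp⟩⟩
      | false => exact ⟨⟨[(o, true), v], (o, true) :: t, by simp⟩,
          ⟨[(o, true)], v :: (o, true) :: t, by simp⟩⟩
    · obtain ⟨h1, h2⟩ := ih hv
      have h3 : W o l <:+: W o (x :: l) := ⟨[(o, true), x, (o, false), x], [], by simp [W]⟩
      exact ⟨h1.trans h3, h2.trans h3⟩

lemma conn {r : ℕ} (o x : Fin r) (hx : x ≠ o) (u : List (Fin r × Bool))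
    (hF : ∀ v : Fin r × Bool, v.1 ≠ o → ∀ b, [(o, b), v] <:+: u ∧ [v, (o, b)] <:+: u) :
    StronglyTwoConnected u := by
  intro z p q hp hq
  obtain ⟨b, hb⟩ : ∃ b : Bool, (o, b) ≠ z := by
    by_cases h : z = (o, true)
    · exact ⟨false, by rw [h]; simp⟩
    · exact ⟨true, fun h' => h h'.symm⟩
  obtain ⟨c, hc⟩ : ∃ c : Bool, (x, c) ≠ z := by
    by_cases h : z = (x, true)
    · exact ⟨false, by rw [h]; simp⟩
    · exact ⟨true, fun h' => h h'.symm⟩
  have e1 : ∀ (v : Fin r × Bool) (d : Bool), v.1 ≠ o → v ≠ z → Arc u z (o, d) v :=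
    fun v d hv hvz => ⟨hvz, (hF v hv (!d)).1⟩
  have e2 : ∀ (v : Fin r × Bool) (d : Bool), v.1 ≠ o → (o, d) ≠ z → Arc u z v (o, d) :=
    fun v d hv hd => ⟨hd, (hF (v.1, !v.2) hv d).2⟩
  have hub : ∀ p : Fin r × Bool, p ≠ z → Relation.ReflTransGen (Arc u z) p (o, b) ∧
      Relation.ReflTransGen (Arc u z) (o, b) p := by
    intro p hp
    by_cases hp0 : p.1 = o
    · obtain ⟨p1, p2⟩ := p
      simp only at hp0
      subst hp0
      exact ⟨(Relation.ReflTransGen.single (e1 (x, c) p2 hx hc)).tail (e2 (x, c) b hx hb),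
        (Relation.ReflTransGen.single (e1 (x, c) b hx hc)).tail (e2 (x, c) p2 hx hp)⟩
    · exact ⟨Relation.ReflTransGen.single (e2 p b hp0 hb),
        Relation.ReflTransGen.single (e1 p b hp0 hp)⟩
  exact (hub p hp).1.trans (hub q hq).2

/-! ### Every blocking word contains all letters -/

/-- the automorphism inverting all the generators -/
def flipHom (r : ℕ) : FreeGroup (Fin r) →* FreeGroup (Fin r) :=
  FreeGroup.lift fun i => (FreeGroup.of i)⁻¹

lemma flip_mk {r : ℕ} (L : List (Fin r × Bool)) :
    flipHom r (FreeGroup.mk L) = FreeGroup.mk (L.map Blk39.bar) := by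
  induction L with
  | nil => simp [← FreeGroup.one_eq_mk]
  | cons x L ih =>
    rw [Blk39.mk_cons, map_mul, ih, List.map_cons, Blk39.mk_cons (Blk39.bar x)]
    congr 1
    obtain ⟨i, b⟩ := x
    cases b with
    | true =>
      have h1 : (FreeGroup.mk [(i, true)] : FreeGroup (Fin r)) = FreeGroup.of i := rfl
      rw [h1, flipHom, FreeGroup.lift_apply_of]
      rfl
    | false =>
      have h1 : (FreeGroup.mk [(i, false)] : FreeGroup (Fin r)) = (FreeGroup.of i)⁻¹ := rfl
      rw [h1, map_inv, flipHom, FreeGroup.lift_apply_of, inv_inv]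
      rfl

lemma bar_map_bar {r : ℕ} (L : List (Fin r × Bool)) :
    (L.map Blk39.bar).map Blk39.bar = L := by
  rw [List.map_map]
  conv_rhs => rw [← List.map_id L]
  apply List.map_congr_left
  intro x _
  exact Blk39.bar_bar x

lemma flip_flip {r : ℕ} (g : FreeGroup (Fin r)) : flipHom r (flipHom r g) = g := by
  rw [← FreeGroup.mk_toWord (x := g), flip_mk, flip_mk, bar_map_bar]

/-- the automorphism inverting all the generators -/
def flipEquiv (r : ℕ) : FreeGroup (Fin r) ≃* FreeGroup (Fin r) where
  toFun := flipHom r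
  invFun := flipHom r
  left_inv := flip_flip
  right_inv := flip_flip
  map_mul' := map_mul _

lemma reduced_map_bar {r : ℕ} {L : List (Fin r × Bool)} (h : FreeGroup.IsReduced L) :
    FreeGroup.IsReduced (L.map Blk39.bar) := by
  induction L with
  | nil => exact h
  | cons x L ih =>
    cases L with
    | nil => exact FreeGroup.IsReduced.singleton
    | cons y L =>
      rw [FreeGroup.isReduced_cons_cons] at h
      rw [List.map_cons, List.map_cons, FreeGroup.isReduced_cons_cons]
      refine ⟨fun he => ?_, ?_⟩
      · have := h.1 he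
        simp only [Blk39.bar]
        rw [this]
      · rw [← List.map_cons]
        exact ih h.2

lemma extend {r : ℕ} (u : List (Fin r × Bool)) (hu : FreeGroup.IsReduced u) (i : Fin r) (b : Bool)
    (h : (i, !b) ∉ u) : FreeGroup.IsReduced (u ++ [(i, b)]) ∧
      CyclicallyReduced (FreeGroup.mk (u ++ [(i, b)])) := by
  have hred : FreeGroup.IsReduced (u ++ [(i, b)]) := by
    rcases u.eq_nil_or_concat with rfl | ⟨u', t, rfl⟩
    · exact FreeGroup.IsReduced.singleton
    · rw [List.concat_eq_append] at hu h ⊢
      apply Blk39.overlap_one hu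
      apply Blk39.isReduced_pair
      intro h1
      apply h
      have h2 : t = (i, !b) := by
        rw [← Blk39.bar_bar t, ← h1]
        rfl
      simp [h2]
  refine ⟨hred, ?_⟩
  intro x hx y hy
  rw [Blk39.toWord_mk_of hred] at hx hy
  have hy' : (i, b) = y := by simpa using hy
  subst hy'
  have hx' : x ∈ u ++ [(i, b)] := List.mem_of_mem_head? hx
  rintro rfl
  rcases List.mem_append.1 hx' with h1 | h1
  · exact h h1
  · simp at h1

theorem mem_of_blocking {r : ℕ} (u : List (Fin r × Bool)) (hu : IsBlocking u)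
    (c : Fin r × Bool) : c ∈ u := by
  by_contra hc
  obtain ⟨i, b⟩ := c
  obtain ⟨hred, hcyc⟩ := extend u hu.1 i (!b) (by simpa using hc)
  refine hu.2 (FreeGroup.mk (u ++ [(i, !b)])) ?_ hcyc (by rw [Blk39.toWord_mk_of hred]; exact ⟨[], [(i, !b)], by simp⟩)
  cases b with
  | false =>
    refine ⟨MulEquiv.refl _, FreeGroup.mk (u ++ [(i, !false)]), ⟨i, ?_, ?_⟩, rfl⟩
    · rw [Blk39.toWord_mk_of hred]
      simp
    · rw [Blk39.toWord_mk_of hred]
      simpa using hc
  | true =>
    have hred' := reduced_map_bar hred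
    refine ⟨flipEquiv r, FreeGroup.mk ((u ++ [(i, !true)]).map Blk39.bar), ⟨i, ?_, ?_⟩, ?_⟩
    · rw [Blk39.toWord_mk_of hred', List.mem_map]
      exact ⟨(i, false), by simp, rfl⟩
    · rw [Blk39.toWord_mk_of hred', List.mem_map]
      rintro ⟨y, hy, hy2⟩
      have hy3 : y = (i, true) := by
        rw [← Blk39.bar_bar y, hy2]
        rfl
      subst hy3
      rcases List.mem_append.1 hy with h1 | h1
      · exact hc h1
      · simp at h1
    · have h9 : flipHom r (FreeGroup.mk ((u ++ [(i, !true)]).map Blk39.bar)) =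
          FreeGroup.mk (u ++ [(i, !true)]) := by
        rw [flip_mk, bar_map_bar]
      exact h9.symm

/-- **Main result.** Let `r ≥ 2`.
(1) Every reduced word whose directed Whitehead graph is strongly connected, also after the deletion
of any one vertex, is 3P-blocking.
(2) There is such a word of length `8 r - 7`.
(3) Every 3P-blocking word contains each of the `2 r` letters, so it has length at least `2 r`.
In particular the least length of a 3P-blocking word in `F_r` is between `2 r` and `8 r - 7`. -/
theorem result (r : ℕ) (hr : 2 ≤ r) :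
    (∀ u : List (Fin r × Bool), FreeGroup.IsReduced u → StronglyTwoConnected u → IsBlocking u) ∧
    (∃ u : List (Fin r × Bool), StronglyTwoConnected u ∧ IsBlocking u ∧ u.length = 8 * r - 7) ∧
    (∀ u : List (Fin r × Bool), IsBlocking u → (∀ c, c ∈ u) ∧ 2 * r ≤ u.length) := by
  classical
  refine ⟨fun u hu h => blocking_of hr u hu h, ?_, fun u hu => ?_⟩
  · let o : Fin r := ⟨0, by omega⟩
    let x : Fin r := ⟨1, by omega⟩
    let l : List (Fin r × Bool) :=
      (Finset.univ.filter (fun v : Fin r × Bool => v.1 ≠ o)).toList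
    have hl : ∀ v : Fin r × Bool, v ∈ l ↔ v.1 ≠ o := by
      intro v
      simp [l]
    have hconn : StronglyTwoConnected (W o l) := by
      refine conn o x ?_ _ (fun v hv b => W_sub o l v ((hl v).2 hv) b)
      intro h
      have := congrArg Fin.val h
      simp [o, x] at this
    have hred := W_reduced o l (fun v hv => (hl v).1 hv)
    refine ⟨W o l, hconn, blocking_of hr _ hred hconn, ?_⟩
    have hcard : l.length = 2 * (r - 1) := by
      simp only [l, Finset.length_toList]
      have h1 : (Finset.univ.filter (fun v : Fin r × Bool => v.1 ≠ o)) =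
          (Finset.univ.erase o) ×ˢ (Finset.univ : Finset Bool) := by
        ext v
        simp
      rw [h1, Finset.card_product, Finset.card_erase_of_mem (Finset.mem_univ _), Finset.card_univ,
        Finset.card_univ, Fintype.card_fin, Fintype.card_bool]
      ring
    rw [W_length, hcard]
    omega
  · have hall := mem_of_blocking u hu
    refine ⟨hall, ?_⟩
    have h1 : (Finset.univ : Finset (Fin r × Bool)) ⊆ u.toFinset := fun c _ => by
      rw [List.mem_toFinset]
      exact hall c
    have h2 := Finset.card_le_card h1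
    rw [Finset.card_univ, Fintype.card_prod, Fintype.card_fin, Fintype.card_bool] at h2
    have h3 := u.toFinset_card_le
    omega

end Pool.Agent.Results.MP_1d2ce7_al.LinearLength
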